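import Mathlib
import Pool.Agent.X277.Mon.QM

set_option autoImplicit false

/-!
# Actions of monsters on trees and metric spaces
-/

namespace Pool.Agent.Results.MP_65b575_al.ActionsOfMonsters

open Subgroup Filter Topology Pool.Agent.X277.Mon

theorem result :
    -- types (2), (4), (5), (6) have property (FA)
    (∀ (G : Type) [Group G] [Group.FG G] [Infinite G],
      ((∃ n : ℕ, 1 ≤ n ∧ ∀ g : G, g ^ n = 1) ∨
        (∃ p : ℕ, p.Prime ∧ ∀ H : Subgroup G, H ≠ ⊥ → H ≠ ⊤ → IsCyclic H ∧ Nat.card H = p) ∨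
        (∀ g : G, ∀ m : ℕ, 1 ≤ m → ∃ h : G, h ^ m = g) ∨ Finite (ConjClasses G)) → FA G) ∧
    -- type (3)
    (∀ (G : Type) [Group G] [Group.FG G] [Infinite G], ¬ IsCyclic G →
      (∀ H : Subgroup G, H ≠ ⊤ → IsCyclic H) →
      (∀ f : G →* Multiplicative ℤ, f = 1) ∧
      ∀ (A : Bool → Type) [∀ i, Group (A i)] (C : Type) [Group C] (φ : ∀ i, C →* A i),
        (∀ i, Function.Injective (φ i)) → (∀ i, ¬ Function.Surjective (φ i)) →
        IsEmpty (G ≃* Monoid.PushoutI φ)) ∧
    -- types (2), (4), (6): quasimorphisms and isometric actions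
    (∀ (G : Type) [Group G] [Infinite G],
      ((∃ n : ℕ, 1 ≤ n ∧ ∀ g : G, g ^ n = 1) ∨
        (∃ p : ℕ, p.Prime ∧ ∀ H : Subgroup G, H ≠ ⊥ → H ≠ ⊤ → IsCyclic H ∧ Nat.card H = p) ∨
        Finite (ConjClasses G)) →
      (∀ q : G → ℝ, HomQM q → ∀ g, q g = 0) ∧
      ∀ (X : Type) [PseudoMetricSpace X] [MulAction G X] [IsIsometricSMul G X] (g : G) (x : X),
        Tendsto (fun n : ℕ => dist x (g ^ n • x) / n) atTop (𝓝 0)) := by
  have h246 : ∀ (G : Type) [Group G] [Infinite G],
      ((∃ n : ℕ, 1 ≤ n ∧ ∀ g : G, g ^ n = 1) ∨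
        (∃ p : ℕ, p.Prime ∧ ∀ H : Subgroup G, H ≠ ⊥ → H ≠ ⊤ → IsCyclic H ∧ Nat.card H = p) ∨
        Finite (ConjClasses G)) → ConjPowers G := by
    intro G _ _ h
    rcases h with ⟨n, hn, h⟩ | ⟨p, hp, h⟩ | h
    · exact conjPowers_of_exponent hn h
    · exact conjPowers_of_exponent hp.one_le (type4 hp h).2.2
    · exact conjPowers_of_finite
  refine ⟨?_, ?_, ?_⟩
  · intro G _ _ _ h
    rcases h with h | h | h | h
    · exact (h246 G (Or.inl h)).fa
    · exact (h246 G (Or.inr (Or.inl h))).fa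
    · exact fa_of_complete h
    · exact (h246 G (Or.inr (Or.inr h))).fa
  · intro G _ _ _ hnc h
    have h3 : ProperCyclic G := ⟨hnc, h⟩
    have hp : _root_.commutator G = ⊤ := h3.perfect h3.not_comm
    refine ⟨?_, ?_⟩
    · intro f
      ext1 x
      have hx : x ∈ _root_.commutator G := hp ▸ mem_top x
      have h1 : _root_.commutator G ≤ f.ker := by
        rw [_root_.commutator_def, commutator_le]
        intro a _ b _
        rw [MonoidHom.mem_ker, map_commutatorElement, commutatorElement_eq_one_iff_mul_comm]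
        exact mul_comm _ _
      exact h1 hx
    · intro A _ C _ φ hinj hns
      exact ⟨fun e => h3.no_amalgam hp φ hinj hns e⟩
  · intro G _ _ h
    have hG := h246 G h
    exact ⟨fun q hq g => hG.qm hq g, fun X _ _ _ g x => hG.translation g x⟩

end Pool.Agent.Results.MP_65b575_al.ActionsOfMonsters
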