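import Mathlib
import Pool.Agent.X277.Mon.Mal
import Pool.Agent.X277.Mon.Gr
import Pool.Agent.X277.Mon.WP

set_option autoImplicit false

/-!
# Monsters with finitely many conjugacy classes contain Baumslag-Solitar groups, and finitely
presented monsters of types (3), (4), (6) have solvable decision problems
-/

namespace Pool.Agent.Results.MP_65b575_al.DecidableMonsters

open Subgroup Pool.Agent.X277.Mon

theorem result :
    -- groups with finitely many conjugacy classes
    (∀ (G : Type) [Group G], Finite (ConjClasses G) →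
      (∃ n : ℕ, 1 ≤ n ∧ ∀ g : G, g ^ n = 1) ∨
      ((∀ q : G, ¬ IsOfFinOrder q → ∀ n : ℕ, 2 ≤ n → ∃ d : ℕ, 1 ≤ d ∧ ∃ (i : ℕ) (f : BS (n ^ d) →* G),
          Function.Injective f ∧ f (bx (n ^ d)) = q ^ (n ^ i)) ∧
        (∃ q : G, ¬ IsOfFinOrder q) ∧
        ∀ S : Set G, S.Finite → closure S = ⊤ →
          ∃ c : ℝ, 0 < c ∧ ∀ r : ℕ, Real.exp (c * r) ≤ ((ball S r).ncard : ℝ))) ∧
    -- decision problems in finitely presented groups
    (∀ (G : Type) [Group G], Group.IsFinitelyPresented G → Finite (ConjClasses G) →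
      SolvableCP G ∧ SolvableWP G) ∧
    (∀ (G : Type) [Group G], Group.IsFinitelyPresented G → Infinite G → ¬ IsCyclic G →
      (∀ H : Subgroup G, H ≠ ⊤ → IsCyclic H) → SolvableWP G) ∧
    (∀ (G : Type) [Group G], Group.IsFinitelyPresented G → Infinite G →
      (∃ p : ℕ, p.Prime ∧ ∀ H : Subgroup G, H ≠ ⊥ → H ≠ ⊤ → IsCyclic H ∧ Nat.card H = p) →
      SolvableWP G) := by
  refine ⟨?_, ?_, ?_, ?_⟩
  · intro G _ hc
    rcases dichotomy G with ⟨n, hn, h⟩ | ⟨q, hq, -⟩
    · exact Or.inl ⟨n, hn, h⟩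
    · right
      refine ⟨?_, ⟨q, hq⟩, ?_⟩
      · intro q hq n hn
        obtain ⟨d, hd, i, g, h1, h2⟩ := exists_bs hq n hn
        have hN : 2 ≤ n ^ d := hn.trans (Nat.le_self_pow (by omega) n)
        obtain ⟨f, hf, -, hfx⟩ := bs_embed h2 hN h1
        exact ⟨d, hd, i, f, hf, hfx⟩
      · intro S hSf hS
        obtain ⟨d, hd, i, g, h1, h2⟩ := exists_bs hq 2 le_rfl
        have hN : 2 ≤ 2 ^ d := Nat.le_self_pow (by omega) 2
        exact exp_growth h2 hN h1 hSf hS
  · intro G _ hfp hc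
    have h1 : SolvableCP G := cp_of_finite
    exact ⟨h1, h1.wp⟩
  · intro G _ hfp hi hnc h
    exact wp_of_properCyclic ⟨hnc, h⟩
  · intro G _ hfp hi h
    obtain ⟨p, hp, h4⟩ := h
    exact wp_of_properCyclic (type4 hp h4).2.1

end Pool.Agent.Results.MP_65b575_al.DecidableMonsters
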