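import Mathlib
import Pool.Agent.X277.Mon.Mal

set_option autoImplicit false

/-!
# Finitely presented monsters of types (3), (4), (6) reduce to simple groups
-/

namespace Pool.Agent.Results.MP_65b575_al.SimpleMonsters

open Subgroup

/-- The properties (2)-(6) of the problem. -/
def HasProperty (k : ℕ) (G : Type) [Group G] : Prop :=
  (k = 2 ∧ ∃ n : ℕ, 1 ≤ n ∧ ∀ g : G, g ^ n = 1) ∨
  (k = 3 ∧ ¬ IsCyclic G ∧ ∀ H : Subgroup G, H ≠ ⊤ → IsCyclic H) ∨
  (k = 4 ∧ ∃ p : ℕ, p.Prime ∧ ∀ H : Subgroup G, H ≠ ⊥ → H ≠ ⊤ → IsCyclic H ∧ Nat.card H = p) ∨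
  (k = 5 ∧ ∀ g : G, ∀ m : ℕ, 1 ≤ m → ∃ h : G, h ^ m = g) ∨
  (k = 6 ∧ Finite (ConjClasses G))

/-- A finitely presented monster of type `k` (for `k` from 2 to 6). -/
def FPMonster (k : ℕ) (G : Type) [Group G] : Prop :=
  Group.IsFinitelyPresented G ∧ Infinite G ∧ HasProperty k G

theorem has_two {G : Type} [Group G] :
    HasProperty 2 G ↔ ∃ n : ℕ, 1 ≤ n ∧ ∀ g : G, g ^ n = 1 := by
  simp [HasProperty]

theorem has_three {G : Type} [Group G] :
    HasProperty 3 G ↔ ¬ IsCyclic G ∧ ∀ H : Subgroup G, H ≠ ⊤ → IsCyclic H := by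
  simp [HasProperty]

theorem has_four {G : Type} [Group G] :
    HasProperty 4 G ↔ ∃ p : ℕ, p.Prime ∧
      ∀ H : Subgroup G, H ≠ ⊥ → H ≠ ⊤ → IsCyclic H ∧ Nat.card H = p := by
  simp [HasProperty]

theorem has_five {G : Type} [Group G] :
    HasProperty 5 G ↔ ∀ g : G, ∀ m : ℕ, 1 ≤ m → ∃ h : G, h ^ m = g := by
  simp [HasProperty]

theorem has_six {G : Type} [Group G] :
    HasProperty 6 G ↔ Finite (ConjClasses G) := by
  simp [HasProperty]

open Pool.Agent.X277.Mon in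
theorem result :
    -- type (6)
    (∀ (G : Type) [Group G], FPMonster 6 G →
      ∃ R : Subgroup G, R.Normal ∧ R.FiniteIndex ∧ (∀ H : Subgroup R, H.FiniteIndex → H = ⊤) ∧
        ∃ (N : Subgroup R) (_ : N.Normal), FPMonster 6 (R ⧸ N) ∧ IsSimpleGroup (R ⧸ N)) ∧
    (∀ (G : Type) [Group G], FPMonster 6 G → FPMonster 2 G ∨
      ∃ q : G, ¬ IsOfFinOrder q ∧ ∃ m n : ℕ, 0 < m ∧ m < n ∧ IsConj (q ^ m) (q ^ n)) ∧
    -- type (3)
    (∀ (G : Type) [Group G], FPMonster 3 G →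
      IsCyclic (center G) ∧ _root_.commutator G = ⊤ ∧
      (∀ N : Subgroup G, N.Normal → N ≠ ⊤ → N ≤ center G) ∧
      (∀ H : Subgroup G, H.FiniteIndex → H = ⊤) ∧
      FPMonster 3 (G ⧸ center G) ∧ IsSimpleGroup (G ⧸ center G) ∧
      (∀ x : G ⧸ center G, x ≠ 1 → IsCyclic (centralizer {x}) ∧
        ∀ y ∈ centralizer {x}, y ≠ 1 → ∀ g : G ⧸ center G,
          g * y * g⁻¹ ∈ centralizer {x} → g ∈ centralizer {x}) ∧
      ¬ HasProperty 5 G ∧
      (HasProperty 6 G → FPMonster 2 (G ⧸ center G))) ∧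
    -- type (4)
    (∀ (G : Type) [Group G], FPMonster 4 G →
      IsSimpleGroup G ∧ FPMonster 3 G ∧ FPMonster 2 G ∧ ¬ HasProperty 5 G) ∧
    -- existence
    (∀ k ∈ ({3, 4, 6} : Set ℕ), (∃ (G : Type) (_ : Group G), FPMonster k G) →
      ∃ (Q : Type) (_ : Group Q), FPMonster k Q ∧ IsSimpleGroup Q) := by
  have A6 : ∀ (G : Type) [Group G], FPMonster 6 G →
      ∃ R : Subgroup G, R.Normal ∧ R.FiniteIndex ∧ (∀ H : Subgroup R, H.FiniteIndex → H = ⊤) ∧
        ∃ (N : Subgroup R) (_ : N.Normal), FPMonster 6 (R ⧸ N) ∧ IsSimpleGroup (R ⧸ N) := by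
    intro G _ h
    obtain ⟨hfp, hi, h6⟩ := h
    have h6' : Finite (ConjClasses G) := has_six.1 h6
    obtain ⟨R, h1, h2, h3, h4, N, hN, h5, h6, h7, h8⟩ := type6 (G := G)
    exact ⟨R, h1, h2, h4, N, hN, ⟨h7, h5, has_six.2 h8⟩, h6⟩
  have A6' : ∀ (G : Type) [Group G], FPMonster 6 G → FPMonster 2 G ∨
      ∃ q : G, ¬ IsOfFinOrder q ∧ ∃ m n : ℕ, 0 < m ∧ m < n ∧ IsConj (q ^ m) (q ^ n) := by
    intro G _ h
    obtain ⟨hfp, hi, h6⟩ := h
    have h6' : Finite (ConjClasses G) := has_six.1 h6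
    rcases dichotomy G with ⟨n, hn, hq⟩ | h1
    · exact Or.inl ⟨hfp, hi, has_two.2 ⟨n, hn, hq⟩⟩
    · exact Or.inr h1
  have A3 : ∀ (G : Type) [Group G], FPMonster 3 G →
      IsCyclic (center G) ∧ _root_.commutator G = ⊤ ∧
      (∀ N : Subgroup G, N.Normal → N ≠ ⊤ → N ≤ center G) ∧
      (∀ H : Subgroup G, H.FiniteIndex → H = ⊤) ∧
      FPMonster 3 (G ⧸ center G) ∧ IsSimpleGroup (G ⧸ center G) ∧
      (∀ x : G ⧸ center G, x ≠ 1 → IsCyclic (centralizer {x}) ∧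
        ∀ y ∈ centralizer {x}, y ≠ 1 → ∀ g : G ⧸ center G,
          g * y * g⁻¹ ∈ centralizer {x} → g ∈ centralizer {x}) ∧
      ¬ HasProperty 5 G ∧
      (HasProperty 6 G → FPMonster 2 (G ⧸ center G)) := by
    intro G _ h
    obtain ⟨hfp, hi, h3⟩ := h
    have h3' : ProperCyclic G := has_three.1 h3
    have hfg : Group.FG G := by
      obtain ⟨n, φ, hφ, -⟩ := hfp.out
      exact Group.fg_of_surjective hφ
    have hc : center G ≠ ⊤ := h3'.not_comm
    have hcyc : IsCyclic (center G) := h3'.2 _ hc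
    have hinf := h3'.infinite_quotient hc
    have hs := h3'.simple_quotient hc
    have hq := h3'.quotient hc
    have hcfg : Group.FG (center G) := by
      obtain ⟨c, hc'⟩ := ((center G).isCyclic_iff_exists_zpowers_eq_top).1 hcyc
      rw [Group.fg_iff_subgroup_fg]
      exact ⟨{c}, by rw [Finset.coe_singleton, ← zpowers_eq_closure, hc']⟩
    have hfpq : Group.IsFinitelyPresented (G ⧸ center G) :=
      Group.IsFinitelyPresented.quotient _ (.of_FG _)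
    refine ⟨hcyc, h3'.perfect hc, fun N hN hNt => h3'.normal_le_center N hNt, ?_,
      ⟨hfpq, hinf, has_three.2 hq⟩, hs, ?_, ?_, ?_⟩
    · intro H hH
      by_contra hHt
      have h1 : H.normalCore ≠ ⊤ := fun h => hHt (top_le_iff.1 (h ▸ H.normalCore_le))
      have h2 := h3'.normal_le_center H.normalCore h1
      have h3 : (center G).FiniteIndex := finiteIndex_of_le h2
      have h4 : Finite (G ⧸ center G) := inferInstance
      exact not_finite (G ⧸ center G)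
    · intro x hx
      exact ⟨hq.2 _ (hq.centralizer_ne_top hx), fun y hy hy1 g hg => hq.malnormal hx hy1 hy hg⟩
    · intro h5
      apply hq.not_complete
      intro g m hm
      obtain ⟨g', rfl⟩ := QuotientGroup.mk'_surjective _ g
      obtain ⟨h', hh'⟩ := has_five.1 h5 g' m hm
      exact ⟨QuotientGroup.mk' _ h', by rw [← map_pow, hh']⟩
    · intro h6
      have h6' : Finite (ConjClasses G) := has_six.1 h6
      have h7 : Finite (ConjClasses (G ⧸ center G)) := finite_cc_quotient _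
      rcases dichotomy (G ⧸ center G) with ⟨n, hn, hq'⟩ | ⟨q, hq1, m, n, hm, hmn, hmn'⟩
      · exact ⟨hfpq, hinf, has_two.2 ⟨n, hn, hq'⟩⟩
      · exact absurd hmn' (hq.not_conj hq1 hm hmn)
  have A4 : ∀ (G : Type) [Group G], FPMonster 4 G →
      IsSimpleGroup G ∧ FPMonster 3 G ∧ FPMonster 2 G ∧ ¬ HasProperty 5 G := by
    intro G _ h
    obtain ⟨hfp, hi, h4⟩ := h
    obtain ⟨p, hp, h4'⟩ := has_four.1 h4
    obtain ⟨h1, h2, h3⟩ := type4 hp h4'
    have hm3 : FPMonster 3 G := ⟨hfp, hi, has_three.2 h2⟩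
    exact ⟨h1, hm3, ⟨hfp, hi, has_two.2 ⟨p, hp.one_le, h3⟩⟩, (A3 G hm3).2.2.2.2.2.2.2.1⟩
  refine ⟨A6, A6', A3, A4, ?_⟩
  rintro k hk ⟨G, hG, hm⟩
  rcases hk with rfl | rfl | rfl
  · have h1 := A3 G hm
    exact ⟨G ⧸ center G, inferInstance, h1.2.2.2.2.1, h1.2.2.2.2.2.1⟩
  · exact ⟨G, hG, hm, (A4 G hm).1⟩
  · obtain ⟨R, -, -, -, N, hN, h1, h2⟩ := A6 G hm
    exact ⟨R ⧸ N, inferInstance, h1, h2⟩

end Pool.Agent.Results.MP_65b575_al.SimpleMonsters
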